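import Mathlib
import Pool.Agent.Y958.SP.Stm4
import Pool.Agent.Y447.SP.Ind

set_option autoImplicit false
set_option linter.all false

/-! # Project SP: from a general sum of independent variables to fixed multiples, one for each scale -/

namespace Pool.Agent.Y528.SP

open Pool.Agent.Y958.SP (nn ph)
open Pool.Agent.Y447.SP (nn_natAbs en en_bound)

theorem t_IND2 : Pool.Agent.Y958.SP.IND2 := by
  classical
  intro K m J p x c T B μ ρ S hp hs hμ hρ hT hB hadm hmass hS
  -- the triples, their weights and energies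
  set d : Fin K × Fin m × Fin m → ℤ := fun t => x t.1 t.2.1 - x t.1 t.2.2 with hd
  set w : Fin K × Fin m × Fin m → ℝ := fun t => p t.1 t.2.1 * p t.1 t.2.2 with hw
  set F : Fin K × Fin m × Fin m → ℝ := fun t => ∑ a ∈ S, nn (a * (d t : ℝ)) ^ 2 with hF
  set P : ℕ → Finset (Fin K × Fin m × Fin m) := fun j => Finset.univ.filter fun t =>
    T j ≤ |(d t : ℝ)| ∧ |(d t : ℝ)| ≤ B * T j with hP
  have hw0 : ∀ t, 0 ≤ w t := fun t => mul_nonneg (hp _ _) (hp _ _)
  have hF0 : ∀ t, 0 ≤ F t := fun t => Finset.sum_nonneg fun a _ => sq_nonneg _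
  have hch : ∀ j : ℕ, ∃ t : ℕ, j ≤ J → (T j ≤ t ∧ (t : ℝ) ≤ B * T j) ∧
      μ * ∑ a ∈ S, nn (a * t) ^ 2 ≤ ∑ t ∈ P j, w t * F t := by
    intro j
    by_cases hj : j ≤ J
    swap
    · exact ⟨0, fun h => absurd h hj⟩
    have h1 : μ ≤ ∑ t ∈ P j, w t := by
      refine (hmass j hj).trans (le_of_eq ?_)
      rw [hP, Finset.sum_filter, ← Finset.univ_product_univ, Finset.sum_product]
      refine Finset.sum_congr rfl fun i _ => ?_
      rw [← Finset.univ_product_univ, Finset.sum_product]
    have h2 : (P j).Nonempty := by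
      by_contra hcon
      rw [Finset.not_nonempty_iff_eq_empty] at hcon
      rw [hcon, Finset.sum_empty] at h1
      linarith
    obtain ⟨t, ht, hmin⟩ := Finset.exists_min_image (P j) F h2
    have ht' := (Finset.mem_filter.1 ht).2
    have e0 : (((d t).natAbs : ℕ) : ℝ) = |(d t : ℝ)| := by
      rw [Nat.cast_natAbs]
      push_cast
      rfl
    refine ⟨(d t).natAbs, fun _ => ⟨?_, ?_⟩⟩
    · rw [e0]
      exact ht'
    · have hF' : ∑ a ∈ S, nn (a * (((d t).natAbs : ℕ) : ℝ)) ^ 2 = F t := by
        rw [hF]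
        refine Finset.sum_congr rfl fun a _ => ?_
        rw [nn_natAbs]
      rw [hF']
      calc μ * F t ≤ (∑ t ∈ P j, w t) * F t := mul_le_mul_of_nonneg_right h1 (hF0 t)
        _ = ∑ t' ∈ P j, w t' * F t := Finset.sum_mul _ _ _
        _ ≤ ∑ t' ∈ P j, w t' * F t' := by
          refine Finset.sum_le_sum fun t' h' => ?_
          exact mul_le_mul_of_nonneg_left (hmin t' h') (hw0 t')
  choose τ hτ using hch
  -- the scales are far apart
  have hTlt : ∀ k j, j < k → k ≤ J → B * T j < T k := by
    intro k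
    induction k with
    | zero =>
      intro j hj
      omega
    | succ k ih =>
      intro j hj hk
      rcases Nat.lt_succ_iff_lt_or_eq.1 hj with h | h
      · have h1 := ih j h (by omega)
        have h2 := hadm k (by omega)
        have h3 := hT k (by omega)
        nlinarith
      · subst h
        exact hadm j (by omega)
  have hdis : ∀ j ∈ Finset.range (J + 1), ∀ k ∈ Finset.range (J + 1), j ≠ k → Disjoint (P j) (P k) := by
    have key : ∀ j k, j < k → k ≤ J → Disjoint (P j) (P k) := by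
      intro j k hjk hk
      rw [Finset.disjoint_left]
      intro t h1 h2
      have h3 := (Finset.mem_filter.1 h1).2
      have h4 := (Finset.mem_filter.1 h2).2
      have h5 := hTlt k j hjk hk
      linarith [h3.2, h4.1]
    intro j hj k hk hjk
    rw [Finset.mem_range] at hj hk
    rcases Nat.lt_or_gt_of_ne hjk with h | h
    · exact key j k h (by omega)
    · exact (key k j h (by omega)).symm
  refine ⟨τ, fun j hj => (hτ j hj).1, ?_⟩
  set σ : ℝ := Real.log (1 / ρ) / (2 * μ) with hσ
  refine ⟨S.filter fun a => ∑ j ∈ Finset.range (J + 1), nn (a * τ j) ^ 2 ≤ σ,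
    Finset.filter_subset _ _, ?_, fun a ha => (Finset.mem_filter.1 ha).2⟩
  rcases S.eq_empty_or_nonempty with hS0 | hS0
  · rw [hS0]
    simp
  -- the total mass
  have htot : ∑ a ∈ S, ∑ j ∈ Finset.range (J + 1), nn (a * τ j) ^ 2 ≤ S.card * (σ / 2) := by
    have h1 : μ * ∑ a ∈ S, ∑ j ∈ Finset.range (J + 1), nn (a * τ j) ^ 2 ≤
        ∑ a ∈ S, ∑ i, en (p i) (x i) a := by
      calc μ * ∑ a ∈ S, ∑ j ∈ Finset.range (J + 1), nn (a * τ j) ^ 2
          = ∑ j ∈ Finset.range (J + 1), μ * ∑ a ∈ S, nn (a * τ j) ^ 2 := by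
            rw [Finset.sum_comm, Finset.mul_sum]
        _ ≤ ∑ j ∈ Finset.range (J + 1), ∑ t ∈ P j, w t * F t :=
            Finset.sum_le_sum fun j hj =>
              (hτ j (Nat.lt_succ_iff.1 (Finset.mem_range.1 hj))).2
        _ = ∑ t ∈ (Finset.range (J + 1)).biUnion P, w t * F t :=
            (Finset.sum_biUnion hdis).symm
        _ ≤ ∑ t, w t * F t :=
            Finset.sum_le_sum_of_subset_of_nonneg (Finset.subset_univ _)
              fun t _ _ => mul_nonneg (hw0 t) (hF0 t)
        _ = ∑ a ∈ S, ∑ i, en (p i) (x i) a := by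
            rw [← Finset.univ_product_univ, Finset.sum_product, Finset.sum_comm (s := S)]
            refine Finset.sum_congr rfl fun i _ => ?_
            unfold en
            rw [← Finset.univ_product_univ, Finset.sum_product, Finset.sum_comm (s := S)]
            refine Finset.sum_congr rfl fun k _ => ?_
            rw [Finset.sum_comm (s := S)]
            refine Finset.sum_congr rfl fun l _ => ?_
            rw [hw, hF]
            simp only
            rw [Finset.mul_sum]
    have h2 : ∑ a ∈ S, ∑ i, en (p i) (x i) a ≤ S.card * (Real.log (1 / ρ) / 4) := by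
      rw [← nsmul_eq_mul]
      apply Finset.sum_le_card_nsmul
      intro a ha
      have := en_bound p x c a ρ hp hs hρ (hS a ha)
      linarith
    have h3 : μ * (S.card * (σ / 2)) = S.card * (Real.log (1 / ρ) / 4) := by
      rw [hσ]
      field_simp
      ring
    have h4 := h1.trans h2
    rw [← h3] at h4
    exact le_of_mul_le_mul_left h4 hμ
  have hσ0 : 0 ≤ σ := by
    obtain ⟨a, ha⟩ := hS0
    have h1 := en_bound p x c a ρ hp hs hρ (hS a ha)
    have h2 : 0 ≤ ∑ j, en (p j) (x j) a := by
      apply Finset.sum_nonneg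
      intro j _
      unfold en
      refine Finset.sum_nonneg fun k _ => Finset.sum_nonneg fun l _ => ?_
      exact mul_nonneg (mul_nonneg (hp _ _) (hp _ _)) (sq_nonneg _)
    have h3 : 0 ≤ Real.log (1 / ρ) := by linarith
    rw [hσ]
    positivity
  by_contra hcon
  push Not at hcon
  have h1 := Finset.card_filter_add_card_filter_not (s := S)
    (fun a => ∑ j ∈ Finset.range (J + 1), nn (a * τ j) ^ 2 ≤ σ)
  set S₁ := S.filter fun a => ∑ j ∈ Finset.range (J + 1), nn (a * τ j) ^ 2 ≤ σ with hS₁
  set S₂ := S.filter fun a => ¬ ∑ j ∈ Finset.range (J + 1), nn (a * τ j) ^ 2 ≤ σ with hS₂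
  have h2 : S₂.Nonempty := by
    rw [← Finset.card_pos]
    omega
  have h3 : (S₂.card : ℝ) * σ < ∑ a ∈ S₂, ∑ j ∈ Finset.range (J + 1), nn (a * τ j) ^ 2 := by
    rw [← nsmul_eq_mul, ← Finset.sum_const]
    apply Finset.sum_lt_sum_of_nonempty h2
    intro a ha
    exact not_le.1 (Finset.mem_filter.1 ha).2
  have h4 : ∑ a ∈ S₂, ∑ j ∈ Finset.range (J + 1), nn (a * τ j) ^ 2 ≤
      ∑ a ∈ S, ∑ j ∈ Finset.range (J + 1), nn (a * τ j) ^ 2 := by
    apply Finset.sum_le_sum_of_subset_of_nonneg (Finset.filter_subset _ _)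
    intro a _ _
    exact Finset.sum_nonneg fun j _ => sq_nonneg _
  have h5 : (S.card : ℝ) ≤ 2 * S₂.card := by
    have : S.card ≤ 2 * S₂.card := by omega
    exact_mod_cast this
  have h6 : (S.card : ℝ) * (σ / 2) ≤ 2 * S₂.card * (σ / 2) :=
    mul_le_mul_of_nonneg_right h5 (by positivity)
  linarith

end Pool.Agent.Y528.SP
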